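import Mathlib
import Pool.Agent.Lib.MP_524521_nt.BM.Final

/-!
# Optimal lower bounds for polynomials in Hurwitz zeta values at large rational points

For `0 < x` and `k ≥ 2` let `ζ(k, x) = ∑ n ≥ 0, (n + x)^(-k)`, so that `ζ(k, 1) = ζ(k)` and
`ζ(k, n + 1) = ζ(k) - ∑ 1 ≤ j ≤ n, j^(-k)` is the `n`-th tail of the series of `ζ(k)`.
-/

set_option autoImplicit false

namespace Pool.Agent.Results.MP_524521_nt.HurwitzLarge

/-- The Hurwitz zeta value `ζ(k, x) = ∑ n ≥ 0, (n + x)^(-k)`, for `k ≥ 2` and `x > 0`. -/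
noncomputable def zeta (k : ℕ) (x : ℝ) : ℝ := ∑' n : ℕ, 1 / ((n : ℝ) + x) ^ k

/-- Let `E` be a nonempty finite set of monomials in `m` variables (given by their exponents) that
contains all divisors of its members, and `L` the number of its members.
(1) For `ε > 0` there is `C` such that for `H ≥ 2` and rational `x` with denominator `b` and
`x ≥ C b^C log H` every nonzero integer polynomial in `ζ(2, x), ..., ζ(m + 1, x)` with monomials
in `E` and coefficients at most `H` in absolute value is at least `x^(-C) H^(-(L - 1 + ε))` in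
absolute value. (2) If for a rational `x > 0` a nonzero integer polynomial with monomials in `E`
vanishes at `(ζ(2, x), ..., ζ(m + 1, x))`, then for some `C` and every `n ≥ 0` some nonzero integer
polynomial with monomials in `E` and coefficients at most `C^(n + 1)` in absolute value vanishes at
`(ζ(2, x + n), ..., ζ(m + 1, x + n))`. (3) For some `C`, all `H ≥ 1` and all real `x ≥ 1` some
nonzero integer polynomial in `ζ(2, x), ..., ζ(m + 1, x)` with monomials in `E` and coefficients at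
most `H` in absolute value is at most `C H^(-(L - 1))` in absolute value. -/
theorem result (m : ℕ) (E : Finset (Fin m →₀ ℕ)) (hE0 : E.Nonempty)
    (hE : ∀ e ∈ E, ∀ f ≤ e, f ∈ E) :
    (∀ ε : ℝ, 0 < ε → ∃ C : ℕ, ∀ (H : ℕ) (x : ℚ), 2 ≤ H →
      (C : ℝ) * (x.den : ℝ) ^ C * Real.log H ≤ x →
      ∀ P : MvPolynomial (Fin m) ℤ, P ≠ 0 → P.support ⊆ E → (∀ e, |P.coeff e| ≤ H) →
        1 / ((x : ℝ) ^ C * (H : ℝ) ^ ((E.card : ℝ) - 1 + ε)) ≤
          |MvPolynomial.aeval (fun j : Fin m => zeta (j + 2) x) P|) ∧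
    (∀ x : ℚ, 0 < x → (∃ P : MvPolynomial (Fin m) ℤ, P ≠ 0 ∧ P.support ⊆ E ∧
        MvPolynomial.aeval (fun j : Fin m => zeta (j + 2) x) P = 0) →
      ∃ C : ℕ, ∀ n : ℕ, ∃ P : MvPolynomial (Fin m) ℤ, P ≠ 0 ∧ P.support ⊆ E ∧
        (∀ e, |P.coeff e| ≤ (C : ℤ) ^ (n + 1)) ∧
        MvPolynomial.aeval (fun j : Fin m => zeta (j + 2) (x + n)) P = 0) ∧
    ∃ C : ℕ, ∀ (H : ℕ) (x : ℝ), 1 ≤ H → 1 ≤ x → ∃ P : MvPolynomial (Fin m) ℤ, P ≠ 0 ∧
      P.support ⊆ E ∧ (∀ e, |P.coeff e| ≤ H) ∧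
      |MvPolynomial.aeval (fun j : Fin m => zeta (j + 2) x) P| ≤
        C / (H : ℝ) ^ ((E.card : ℝ) - 1) :=
  Pool.Agent.Lib.MP_524521_nt.BM.final_bm m E hE0 hE

end Pool.Agent.Results.MP_524521_nt.HurwitzLarge
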