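import Mathlib
import Pool.Agent.Lib.MP_524521_nt.RA.FinalQ

/-!
# Polynomial relations between Hurwitz zeta values at rational points

For `0 < x` and `k ≥ 2` let `ζ(k, x) = ∑ n ≥ 0, (n + x)^(-k)`, so that `ζ(k, 1) = ζ(k)` and
`ζ(k, 1/2) = (2^k - 1) ζ(k)`.
-/

set_option autoImplicit false

namespace Pool.Agent.Results.MP_524521_nt.HurwitzRationals

/-- The Hurwitz zeta value `ζ(k, x) = ∑ n ≥ 0, (n + x)^(-k)`, for `k ≥ 2` and `x > 0`. -/
noncomputable def zeta (k : ℕ) (x : ℝ) : ℝ := ∑' n : ℕ, 1 / ((n : ℝ) + x) ^ k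

/-- Some nonzero integer polynomial `P` in `m` variables of total degree at most `D` with
coefficients at most `H` in absolute value satisfies `|P(v 2, v 3, ..., v (m + 1))| < δ`. -/
def SmallValue (m D H : ℕ) (δ : ℝ) (v : ℕ → ℝ) : Prop :=
  ∃ P : MvPolynomial (Fin m) ℤ, P ≠ 0 ∧ P.totalDegree ≤ D ∧ (∀ e, |P.coeff e| ≤ H) ∧
    |MvPolynomial.aeval (fun j : Fin m => v (j + 2)) P| < δ

/-- At most `(log TH)^C` positive rationals `x` with denominator at most `T` have a nonzero integer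
polynomial in `ζ(2, x), ..., ζ(m + 1, x)` of degree at most `D` and height at most `H` which is
smaller than `exp (-(log (T H (x + 1)))^C)` in absolute value. -/
theorem result (m D : ℕ) :
    ∃ C : ℕ, ∀ T H : ℕ, 2 ≤ T → 2 ≤ H →
      {x : ℚ | 0 < x ∧ x.den ≤ T ∧
        SmallValue m D H (Real.exp (-Real.log (T * H * (x + 1)) ^ C)) (zeta · x)}.encard ≤
      (⌊Real.log (T * H) ^ C⌋₊ : ℕ∞) := by
  obtain ⟨C, h, -⟩ := Pool.Agent.Lib.MP_524521_nt.RA.final_qt m D
  exact ⟨C, h⟩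

end Pool.Agent.Results.MP_524521_nt.HurwitzRationals
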