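import Pool.Agent.Lib.MP_524521_nt.PN.Main

/-!
# Polylogarithms near one

For `x = b / a` large with `a` bounded by a small power of `b` and the points
`z_m = 1 - 1 / (x + m)`, `1 ≤ m ≤ k`, all but a bounded number of the `k S` numbers
`Li_j(z_m)`, `1 ≤ j ≤ S`, satisfy no polynomial relation of degree `≤ D`, even with coefficients
which are roots of polynomials of degree `≤ D` in `log x, ζ(2), ..., ζ(S)` and one more variable.
The number of exceptions is at most one plus the transcendence degree of `ζ(2), ..., ζ(S)`; it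
does not depend on `k`. The value of `Li_j` at one is `ζ(j)` for `j ≥ 2`.
-/

namespace Pool.Agent.Results.MP_524521_nt.PolylogNearOne

/-- the polylogarithm `Li_j(z)`, the sum of `z ^ n / n ^ j` over `n ≥ 1` -/
noncomputable def Li (j : ℕ) (z : ℝ) : ℝ := ∑' n : ℕ, z ^ (n + 1) / ((n : ℝ) + 1) ^ j

/-- the point `z_m = 1 - 1 / (x + m)` with `x = b / a` -/
noncomputable def pt (a b m : ℕ) : ℝ := 1 - 1 / ((b : ℝ) / a + m)

/-- the numbers `log x, ζ(2), ζ(3), ...` with `x = b / a` -/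
noncomputable def con (a b : ℕ) : ℕ → ℝ
  | 0 => Real.log ((b : ℝ) / a)
  | j + 1 => Li (j + 2) 1

/-- `r` is a root of `G(log x, ζ(2), ..., ζ(S), T)`, a polynomial in `T` which is not zero, where
`G` is a rational polynomial in `S + 1` variables of total degree at most `D` -/
def IsRoot (S D a b : ℕ) (r : ℝ) : Prop :=
  ∃ G : MvPolynomial (Option (Fin S)) ℚ, G.totalDegree ≤ D ∧
    MvPolynomial.aeval (fun o : Option (Fin S) => o.elim r fun j => con a b j) G = 0 ∧
    ∃ t : ℝ, MvPolynomial.aeval (fun o : Option (Fin S) => o.elim t fun j => con a b j) G ≠ 0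

theorem result (S D k : ℕ) (hS : 1 ≤ S) : ∃ C : ℕ, ∀ a b : ℕ, 1 ≤ a → C * a ^ C ≤ b →
    ∃ E : Finset (Fin k × Fin S),
      (E.card : Cardinal) ≤
        1 + Algebra.trdeg ℚ (Algebra.adjoin ℚ {r : ℝ | ∃ s, 2 ≤ s ∧ s ≤ S ∧ r = Li s 1}) ∧
      E.card ≤ 1 + (S + 1) / 2 ∧
      ∀ P : MvPolynomial {p : Fin k × Fin S // p ∉ E} ℝ, P ≠ 0 → P.totalDegree ≤ D →
        (∀ c, IsRoot S D a b (P.coeff c)) →
        MvPolynomial.aeval (fun p => Li (p.1.2 + 1) (pt a b (p.1.1 + 1))) P ≠ 0 := by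
  obtain ⟨C, hC⟩ := Pool.Agent.Lib.MP_524521_nt.PN.main S D k hS
  refine ⟨C, fun a b ha hb => ?_⟩
  obtain ⟨E, h1, h2, h3⟩ := hC a b ha hb
  refine ⟨E, h1, h2, fun P h0 hD hr => h3 P h0 hD fun c => ?_⟩
  obtain ⟨G, hG, hz, t, ht⟩ := hr c
  have hcon : ∀ j, con a b j = Pool.Agent.Lib.MP_524521_nt.PN.cst' a b j := by
    rintro (_ | j) <;> rfl
  simp only [hcon] at hz ht
  exact ⟨G, hG, hz, t, ht⟩

end Pool.Agent.Results.MP_524521_nt.PolylogNearOne
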