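import Mathlib
import Pool.Agent.Lib.MP_524521_nt.RA.FinalLi

/-!
# Polynomial relations between polylogarithms at rational points

For `|z| ≤ 1` and `k ≥ 2` let `Li_k(z) = ∑ n ≥ 1, z^n / n^k`, so that `Li_k(1) = ζ(k)` and
`Li_k(-1) = -(1 - 2^(1-k)) ζ(k)`.
-/

set_option autoImplicit false

namespace Pool.Agent.Results.MP_524521_nt.PolylogRationals

/-- The polylogarithm `Li_k(z) = ∑ n ≥ 1, z^n / n^k`, for `k ≥ 2` and `|z| ≤ 1`. -/
noncomputable def Li (k : ℕ) (z : ℝ) : ℝ := ∑' n : ℕ, z ^ (n + 1) / ((n : ℝ) + 1) ^ k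

/-- Some nonzero integer polynomial `P` in `m` variables of total degree at most `D` with
coefficients at most `H` in absolute value satisfies
`|P(Li_2(z), Li_3(z), ..., Li_(m + 1)(z))| < δ`. -/
def SmallValue (m D H : ℕ) (δ z : ℝ) : Prop :=
  ∃ P : MvPolynomial (Fin m) ℤ, P ≠ 0 ∧ P.totalDegree ≤ D ∧ (∀ e, |P.coeff e| ≤ H) ∧
    |MvPolynomial.aeval (fun j : Fin m => Li (j + 2) z) P| < δ

/-- At most `(log TH)^C` rationals `z` with `0 < |z| ≤ 1` and denominator at most `T` have a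
nonzero integer polynomial in `Li_2(z), ..., Li_(m + 1)(z)` of degree at most `D` and height at
most `H` which is smaller than `exp (-(log TH)^C)` in absolute value. -/
theorem result (m D : ℕ) :
    ∃ C : ℕ, ∀ T H : ℕ, 2 ≤ T → 2 ≤ H →
      {z : ℚ | z ≠ 0 ∧ |z| ≤ 1 ∧ z.den ≤ T ∧
        SmallValue m D H (Real.exp (-Real.log (T * H) ^ C)) z}.encard ≤
      (⌊Real.log (T * H) ^ C⌋₊ : ℕ∞) :=
  Pool.Agent.Lib.MP_524521_nt.RA.final_li m D

end Pool.Agent.Results.MP_524521_nt.PolylogRationals
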